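import Pool.Agent.H773.LK.Spec2
import Pool.Graph.R_seed8.H792R3.SpecMeas

/-!
# Spectral measures of a direct integral
-/

set_option autoImplicit false

noncomputable section

namespace Pool.Agent.H263.LK

open Pool.Agent.H773.LK
open MeasureTheory Filter Topology Set Polynomial
open scoped ENNReal NNReal ComplexConjugate InnerProductSpace

section generic

variable {F : Type} [NormedAddCommGroup F] [InnerProductSpace ℂ F] [CompleteSpace F]

/-- functional calculus -/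
def cf (f : ℝ → ℝ) (T : F →L[ℂ] F) : F →L[ℂ] F := cfc f T

/-- polynomials of an operator -/
def av (p : ℝ[X]) (T : F →L[ℂ] F) : F →L[ℂ] F := aeval T p

/-- powers of an operator -/
def pw (n : ℕ) (T : F →L[ℂ] F) : F →L[ℂ] F := T ^ n

theorem pw_zero (T : F →L[ℂ] F) : pw 0 T = 1 := pow_zero T

theorem pw_succ (n : ℕ) (T : F →L[ℂ] F) : pw (n + 1) T = pw n T ∘L T := pow_succ T n

theorem av_add (p q : ℝ[X]) (T : F →L[ℂ] F) :
    av (p + q) T = (1 : ℂ) • av p T + (1 : ℂ) • av q T := by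
  simp only [av, map_add, one_smul]

theorem av_mono (n : ℕ) (a : ℝ) (T : F →L[ℂ] F) :
    av (monomial n a) T = (a : ℂ) • pw n T + (0 : ℂ) • pw n T := by
  simp only [av, pw, aeval_monomial, Algebra.algebraMap_eq_smul_one, smul_mul_assoc, one_mul,
    zero_smul, add_zero]
  rfl

theorem spec_bd (T : F →L[ℂ] F) (R : ℝ) (hT : ‖T‖ ≤ R) : ∀ x ∈ spectrum ℝ T, x ∈ Icc (-R) R := by
  intro x hx
  have h1 := spectrum.norm_le_norm_mul_of_mem hx
  have h2 : ‖(1 : F →L[ℂ] F)‖ ≤ 1 := ContinuousLinearMap.norm_id_le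
  have h3 : ‖x‖ ≤ R := by
    calc ‖x‖ ≤ ‖T‖ * ‖(1 : F →L[ℂ] F)‖ := h1
      _ ≤ ‖T‖ * 1 := mul_le_mul_of_nonneg_left h2 (norm_nonneg _)
      _ ≤ R := by rw [mul_one]; exact hT
  rw [Real.norm_eq_abs, abs_le] at h3
  exact h3

theorem aeval_near (T : F →L[ℂ] F) (hsT : IsSelfAdjoint T) (R : ℝ) (hT : ‖T‖ ≤ R) (f : ℝ → ℝ)
    (hf : Continuous f) (p : ℝ[X]) (ε : ℝ) (hε : 0 ≤ ε)
    (hp : ∀ x ∈ Icc (-R) R, |p.eval x - f x| ≤ ε) : ‖av p T - cf f T‖ ≤ ε := by
  have h1 : cfc p.eval T = aeval T p := cfc_polynomial p T hsT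
  rw [av, cf, ← h1, ← cfc_sub (a := T) p.eval f p.continuous.continuousOn hf.continuousOn]
  refine norm_cfc_le hε fun x hx => ?_
  rw [Real.norm_eq_abs]
  exact hp x (spec_bd T R hT x hx)

theorem cfc_bd (T : F →L[ℂ] F) (R K : ℝ) (hT : ‖T‖ ≤ R) (f : ℝ → ℝ) (hK : 0 ≤ K)
    (hf : ∀ x ∈ Icc (-R) R, |f x| ≤ K) : ‖cf f T‖ ≤ K := by
  refine norm_cfc_le hK fun x hx => ?_
  rw [Real.norm_eq_abs]
  exact hf x (spec_bd T R hT x hx)

theorem inner_lim (T : F →L[ℂ] F) (S : ℕ → F →L[ℂ] F) (v : F) (ε : ℕ → ℝ)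
    (hε : Tendsto ε atTop (𝓝 0)) (h : ∀ n, ‖S n - T‖ ≤ ε n) :
    Tendsto (fun n => inner ℂ v (S n v)) atTop (𝓝 (inner ℂ v (T v))) := by
  have h4 : Tendsto S atTop (𝓝 T) := by
    rw [tendsto_iff_norm_sub_tendsto_zero]
    exact squeeze_zero (fun _ => norm_nonneg _) h hε
  have h5 : Tendsto (fun n => S n v) atTop (𝓝 (T v)) :=
    ((ContinuousLinearMap.apply ℂ F v).continuous.tendsto _).comp h4
  exact tendsto_const_nhds.inner h5

theorem inner_bd (T : F →L[ℂ] F) (v : F) (K : ℝ) (h : ‖T‖ ≤ K) :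
    ‖inner ℂ v (T v)‖ ≤ K * ‖v‖ ^ 2 := by
  calc ‖inner ℂ v (T v)‖ ≤ ‖v‖ * ‖T v‖ := norm_inner_le_norm _ _
    _ ≤ ‖v‖ * (K * ‖v‖) := by
        refine mul_le_mul_of_nonneg_left ?_ (norm_nonneg _)
        exact (ContinuousLinearMap.le_opNorm _ _).trans
          (mul_le_mul_of_nonneg_right h (norm_nonneg _))
    _ = K * ‖v‖ ^ 2 := by ring

end generic

variable {G : Type} [NormedAddCommGroup G] [InnerProductSpace ℂ G] [CompleteSpace G]

theorem selfadj (hDI : S_DI) (A : ℝ → G →L[ℂ] G) (AA : DI G →L[ℂ] DI G) (C : ℝ)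
    (hA : ContinuousOn A (Ioo 0 1)) (hsa : ∀ θ ∈ Ioo (0 : ℝ) 1, IsSelfAdjoint (A θ) ∧ ‖A θ‖ ≤ C)
    (hAA : IsDI A AA) : IsSelfAdjoint AA := by
  obtain ⟨-, -, -, huniq, hadj, -⟩ := hDI G G G
  have h1 := hadj A AA C hA (fun θ hθ => (hsa θ hθ).2) hAA
  have h2 : IsDI A AA.adjoint := by
    intro F
    filter_upwards [h1 F, ae_restrict_mem measurableSet_Ioo] with θ h3 h4
    rw [h3]
    congr 1
    exact ((hsa θ h4).1 : star (A θ) = A θ)
  exact (huniq A AA AA.adjoint hAA h2).symm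

theorem aeval_DI (hDI : S_DI) (A : ℝ → G →L[ℂ] G) (AA : DI G →L[ℂ] DI G) (hAA : IsDI A AA)
    (p : ℝ[X]) : IsDI (fun θ => av p (A θ)) (av p AA) := by
  obtain ⟨-, hcomp, hlin, -, -, hone⟩ := hDI G G G
  induction p using Polynomial.induction_on' with
  | add p q hp hq =>
    simp only [av_add]
    exact hlin _ _ _ _ 1 1 hp hq
  | monomial n a =>
    have hpow : ∀ n : ℕ, IsDI (fun θ => pw n (A θ)) (pw n AA) := by
      intro n
      induction n with
      | zero =>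
        simp only [pw_zero]
        exact hone
      | succ n ih =>
        simp only [pw_succ]
        exact hcomp _ _ _ _ hAA ih
    simp only [av_mono]
    exact hlin _ _ _ _ (a : ℂ) 0 (hpow n) (hpow n)

theorem formula (hDI : S_DI) (A : ℝ → G →L[ℂ] G) (AA : DI G →L[ℂ] DI G) (C : ℝ)
    (hA : ContinuousOn A (Ioo 0 1)) (hsa : ∀ θ ∈ Ioo (0 : ℝ) 1, IsSelfAdjoint (A θ) ∧ ‖A θ‖ ≤ C)
    (hAA : IsDI A AA) (F : DI G) (f : ℝ → ℝ) (hf : Continuous f) :
    AEStronglyMeasurable (fun θ => inner ℂ (F θ) (cf f (A θ) (F θ))) m01 ∧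
    inner ℂ F (cf f AA F) = ∫ θ, inner ℂ (F θ) (cf f (A θ) (F θ)) ∂m01 := by
  have hsAA := selfadj hDI A AA C hA hsa hAA
  set R : ℝ := max C ‖AA‖ with hR
  obtain ⟨K, hK0, hK⟩ : ∃ K : ℝ, 0 ≤ K ∧ ∀ x ∈ Icc (-R) R, |f x| ≤ K := by
    obtain ⟨K, hK⟩ := isCompact_Icc.exists_bound_of_continuousOn (s := Icc (-R) R)
      (f := f) hf.continuousOn
    exact ⟨max K 0, le_max_right _ _, fun x hx => (hK x hx).trans (le_max_left _ _)⟩
  have hpol : ∀ n : ℕ, ∃ p : ℝ[X], ∀ x ∈ Icc (-R) R, |p.eval x - f x| < 1 / ((n : ℝ) + 1) :=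
    fun n => exists_polynomial_near_of_continuousOn (-R) R f hf.continuousOn _ (by positivity)
  choose p hp using hpol
  have hle : ∀ θ ∈ Ioo (0 : ℝ) 1, ‖A θ‖ ≤ R := fun θ hθ => (hsa θ hθ).2.trans (le_max_left _ _)
  have h1 : ∀ n, ∀ θ ∈ Ioo (0 : ℝ) 1, ‖av (p n) (A θ) - cf f (A θ)‖ ≤ 1 / ((n : ℝ) + 1) :=
    fun n θ hθ => aeval_near (A θ) (hsa θ hθ).1 R (hle θ hθ) f hf (p n) _ (by positivity)
      fun x hx => (hp n x hx).le
  have h2 : ∀ n, ‖av (p n) AA - cf f AA‖ ≤ 1 / ((n : ℝ) + 1) :=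
    fun n => aeval_near AA hsAA R (le_max_right _ _) f hf (p n) _ (by positivity)
      fun x hx => (hp n x hx).le
  have hz : Tendsto (fun n : ℕ => 1 / ((n : ℝ) + 1)) atTop (𝓝 0) :=
    tendsto_one_div_add_atTop_nhds_zero_nat
  have hDIp : ∀ n, (av (p n) AA F : ℝ → G) =ᵐ[m01] fun θ => av (p n) (A θ) (F θ) :=
    fun n => aeval_DI hDI A AA hAA (p n) F
  have hmeas : ∀ n, AEStronglyMeasurable
      (fun θ => inner ℂ (F θ) (av (p n) (A θ) (F θ))) m01 := by
    intro n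
    have h3 : AEStronglyMeasurable (fun θ => av (p n) (A θ) (F θ)) m01 :=
      (Lp.aestronglyMeasurable _).congr (hDIp n)
    exact (Lp.aestronglyMeasurable F).inner h3
  have hpt : ∀ᵐ θ ∂m01, Tendsto (fun n => inner ℂ (F θ) (av (p n) (A θ) (F θ))) atTop
      (𝓝 (inner ℂ (F θ) (cf f (A θ) (F θ)))) := by
    filter_upwards [ae_restrict_mem measurableSet_Ioo] with θ hθ
    exact inner_lim (cf f (A θ)) (fun n => av (p n) (A θ)) (F θ) _ hz (fun n => h1 n θ hθ)
  refine ⟨aestronglyMeasurable_of_tendsto_ae atTop hmeas hpt, ?_⟩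
  have hint : Integrable (fun θ => (K + 1) * ‖F θ‖ ^ 2) m01 := by
    have h6 : Integrable (fun θ => ‖F θ‖ ^ 2) m01 := by
      have := (Lp.memLp F).integrable_norm_pow (by norm_num)
      simpa using this
    exact h6.const_mul _
  have hlim1 : Tendsto (fun n => ∫ θ, inner ℂ (F θ) (av (p n) (A θ) (F θ)) ∂m01) atTop
      (𝓝 (∫ θ, inner ℂ (F θ) (cf f (A θ) (F θ)) ∂m01)) := by
    refine tendsto_integral_of_dominated_convergence (fun θ => (K + 1) * ‖F θ‖ ^ 2) hmeas hint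
      (fun n => ?_) hpt
    filter_upwards [ae_restrict_mem measurableSet_Ioo] with θ hθ
    have h7 : ‖cf f (A θ)‖ ≤ K := cfc_bd (A θ) R K (hle θ hθ) f hK0 hK
    refine inner_bd _ _ _ ?_
    have h9 := h1 n θ hθ
    have h10 : 1 / ((n : ℝ) + 1) ≤ 1 := by
      rw [div_le_one (by positivity)]
      have : (0 : ℝ) ≤ n := Nat.cast_nonneg n
      linarith
    have h11 : av (p n) (A θ) = (av (p n) (A θ) - cf f (A θ)) + cf f (A θ) := by abel
    rw [h11]
    refine (norm_add_le _ _).trans ?_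
    linarith
  have hlim2 : Tendsto (fun n => inner ℂ F (av (p n) AA F)) atTop
      (𝓝 (inner ℂ F (cf f AA F))) :=
    inner_lim (cf f AA) (fun n => av (p n) AA) F _ hz h2
  have heq : ∀ n, inner ℂ F (av (p n) AA F) =
      ∫ θ, inner ℂ (F θ) (av (p n) (A θ) (F θ)) ∂m01 := by
    intro n
    rw [L2.inner_def]
    refine integral_congr_ae ?_
    filter_upwards [hDIp n] with θ hθ
    rw [hθ]
  simp only [heq] at hlim2
  exact tendsto_nhds_unique hlim2 hlim1

/-- the functions `max 0 (1 - n d(t, B))` -/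
def fn (B : Set ℝ) (n : ℕ) (t : ℝ) : ℝ := max 0 (1 - n * Metric.infDist t B)

theorem fn_cont (B : Set ℝ) (n : ℕ) : Continuous (fn B n) := by
  unfold fn
  have := Metric.continuous_infDist_pt B
  fun_prop

theorem fn_nonneg (B : Set ℝ) (n : ℕ) (t : ℝ) : 0 ≤ fn B n t := le_max_left _ _

theorem fn_le_one (B : Set ℝ) (n : ℕ) (t : ℝ) : fn B n t ≤ 1 := by
  unfold fn
  refine max_le zero_le_one ?_
  have : 0 ≤ (n : ℝ) * Metric.infDist t B := mul_nonneg (Nat.cast_nonneg n) Metric.infDist_nonneg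
  linarith

theorem fn_lim {B : Set ℝ} (hB : IsClosed B) (hne : B.Nonempty) (t : ℝ) :
    Tendsto (fun n => fn B n t) atTop (𝓝 (B.indicator (fun _ => (1 : ℝ)) t)) := by
  by_cases ht : t ∈ B
  · rw [indicator_of_mem ht]
    have : ∀ n, fn B n t = 1 := by
      intro n
      unfold fn
      rw [Metric.infDist_zero_of_mem ht]
      simp
    simp only [this]
    exact tendsto_const_nhds
  · rw [indicator_of_notMem ht]
    have hd : 0 < Metric.infDist t B := (hB.notMem_iff_infDist_pos hne).1 ht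
    obtain ⟨N, hN⟩ := exists_nat_gt (1 / Metric.infDist t B)
    refine tendsto_const_nhds.congr' ?_
    filter_upwards [eventually_ge_atTop N] with n hn
    unfold fn
    rw [max_eq_left]
    have h1 : 1 < N * Metric.infDist t B := by rwa [div_lt_iff₀ hd] at hN
    have h2 : (N : ℝ) * Metric.infDist t B ≤ n * Metric.infDist t B :=
      mul_le_mul_of_nonneg_right (by exact_mod_cast hn) hd.le
    linarith

theorem ge_ind {B : Set ℝ} (n : ℕ) (t : ℝ) :
    B.indicator (fun _ => (1 : ℝ)) t ≤ fn B n t := by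
  by_cases ht : t ∈ B
  · rw [indicator_of_mem ht]
    unfold fn
    rw [Metric.infDist_zero_of_mem ht]
    simp
  · rw [indicator_of_notMem ht]
    exact fn_nonneg B n t

/-- **DISP**: spectral measures of a direct integral. -/
theorem t_DISP (hDI : S_DI) : S_DISP := by
  intro G _ _ _ A AA C B hA hsa hAA hB h0 F ν hν
  rcases B.eq_empty_or_nonempty with rfl | hne
  · exact measure_empty
  obtain ⟨hfin, hν⟩ := hν
  have hBm : MeasurableSet B := hB.isClosed.measurableSet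
  have hlimν : Tendsto (fun n => ((∫ x, fn B n x ∂ν : ℝ) : ℂ)) atTop (𝓝 0) := by
    have h1 : ∀ n, ((∫ x, fn B n x ∂ν : ℝ) : ℂ) =
        ∫ θ, inner ℂ (F θ) (cf (fn B n) (A θ) (F θ)) ∂m01 := fun n =>
      (hν _ (fn_cont B n)).2.trans (formula hDI A AA C hA hsa hAA F _ (fn_cont B n)).2
    simp only [h1]
    have h2 : (0 : ℂ) = ∫ _θ : ℝ, (0 : ℂ) ∂m01 := by simp
    rw [h2]
    have hint : Integrable (fun θ => ‖F θ‖ ^ 2) m01 := by
      have := (Lp.memLp F).integrable_norm_pow (by norm_num)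
      simpa using this
    refine tendsto_integral_of_dominated_convergence (fun θ => ‖F θ‖ ^ 2)
      (fun n => (formula hDI A AA C hA hsa hAA F _ (fn_cont B n)).1) hint (fun n => ?_) ?_
    · filter_upwards [ae_restrict_mem measurableSet_Ioo] with θ hθ
      have h7 : ‖cf (fn B n) (A θ)‖ ≤ 1 := cfc_bd (A θ) C 1 (hsa θ hθ).2 _ zero_le_one
        fun x _ => by rw [abs_of_nonneg (fn_nonneg B n x)]; exact fn_le_one B n x
      have h8 := inner_bd _ (F θ) _ h7
      rwa [one_mul] at h8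
    · filter_upwards [h0, ae_restrict_mem measurableSet_Ioo] with θ hθ0 hθ
      obtain ⟨μ, hμ, hμ2⟩ := Pool.Agent.H792R3.exists_specMeas (A θ) (hsa θ hθ).1 (F θ)
      have hB0 : μ B = 0 := hθ0 (F θ) μ ⟨hμ, hμ2⟩
      have h9 : ∀ n, inner ℂ (F θ) (cf (fn B n) (A θ) (F θ)) = ((∫ x, fn B n x ∂μ : ℝ) : ℂ) :=
        fun n => ((hμ2 _ (fn_cont B n)).2).symm
      simp only [h9]
      have h3 : Tendsto (fun n => ∫ x, fn B n x ∂μ) atTop (𝓝 0) := by
        have h4 : (0 : ℝ) = ∫ x, B.indicator (fun _ => (1 : ℝ)) x ∂μ := by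
          rw [integral_indicator hBm, Measure.restrict_eq_zero.2 hB0]
          simp
        rw [h4]
        refine tendsto_integral_of_dominated_convergence (fun _ => (1 : ℝ))
          (fun n => (fn_cont B n).aestronglyMeasurable) (integrable_const _) (fun n => ?_) ?_
        · exact ae_of_all _ fun x => by
            rw [Real.norm_eq_abs, abs_of_nonneg (fn_nonneg B n x)]; exact fn_le_one B n x
        · exact ae_of_all _ fun x => fn_lim hB.isClosed hne x
      exact_mod_cast (Complex.continuous_ofReal.tendsto 0).comp h3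
  have hlimr : Tendsto (fun n => ∫ x, fn B n x ∂ν) atTop (𝓝 0) := by
    have h := (Complex.continuous_re.tendsto 0).comp hlimν
    simp only [Function.comp_def, Complex.ofReal_re, Complex.zero_re] at h
    exact h
  have hle : ∀ n, (ν B).toReal ≤ ∫ x, fn B n x ∂ν := by
    intro n
    have h1 : (ν B).toReal = ∫ x, B.indicator (fun _ => (1 : ℝ)) x ∂ν := by
      rw [integral_indicator hBm]
      simp [Measure.real]
    rw [h1]
    refine integral_mono ?_ (hν _ (fn_cont B n)).1 fun x => ge_ind n x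
    exact (integrable_const (1 : ℝ)).indicator hBm
  have hfinal : (ν B).toReal ≤ 0 := ge_of_tendsto' hlimr hle
  have hne' : ν B ≠ ⊤ := measure_ne_top ν B
  have hz : (ν B).toReal = 0 := le_antisymm hfinal ENNReal.toReal_nonneg
  rcases (ENNReal.toReal_eq_zero_iff _).1 hz with h | h
  · exact h
  · exact absurd h hne'

end Pool.Agent.H263.LK
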